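import Pool.Agent.Q268.Irr.Star
import Pool.Agent.Q268.Irr.Clq

set_option autoImplicit false

namespace Pool.Agent.Results.MP_5484c7_co.InfinitelyMany

open Pool.Agent.Q268.Irr

/-- For every `n ≥ 2` there are `K_{1,n}`-irregular graphs, and for every `n ≥ 3` there are
`K_n`-irregular graphs, with arbitrarily many vertices. -/
theorem result :
    (∀ n : ℕ, 2 ≤ n → ∀ N : ℕ, ∃ (V : Type) (_ : Fintype V) (G : SimpleGraph V),
      N ≤ Fintype.card V ∧ Irregular (star n) G) ∧
    (∀ n : ℕ, 3 ≤ n → ∀ N : ℕ, ∃ (V : Type) (_ : Fintype V) (G : SimpleGraph V),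
      N ≤ Fintype.card V ∧ Irregular (clq n) G) := by
  constructor
  · intro n hn N
    refine ⟨VV (n + 2 + N), inferInstance, SG (n + 2 + N), ?_, SG_irregular hn (by omega)⟩
    simp only [VV, Fintype.card_sum, Fintype.card_fin, Fintype.card_unit]
    omega
  · intro n hn N
    obtain ⟨h, rfl⟩ : ∃ h, n = h + 2 := ⟨n - 2, by omega⟩
    refine ⟨_, inferInstance, Spl (NN h (2 * h + 1 + N)), ?_,
      Spl_irregular h (2 * h + 1 + N) (by omega) (by omega)⟩
    simp only [Fintype.card_sum, Fintype.card_fin]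
    omega

end Pool.Agent.Results.MP_5484c7_co.InfinitelyMany
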